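import Pool.Agent.Y142.ZS.Stm

/-!
# Project Y142-ZS: tasks TANS and CAYS

TANS: tangent vectors of a group of similitudes are similitudes of the Lie algebra.
CAYS: adapted from Pool/Agent/Y692/ZI/Cay.lean.
-/

set_option autoImplicit false

open Matrix Polynomial Filter Topology NumberField IsDedekindDomain
open Pool.Agent.Y142.ZO Pool.Agent.Y142.ZI Pool.Agent.Y142.ZS

namespace Pool.Agent.Y710.ZS

theorem t1 : S_TANS := by
  intro ℓ _ N G _ ρ J hJ hsim X hX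
  obtain ⟨σ, hσ⟩ := hX
  choose c hc using hsim
  have hℓ1 : ‖(ℓ : ℚ_[ℓ])‖ < 1 := by
    rw [Padic.norm_p]
    exact inv_lt_one_of_one_lt₀ (by exact_mod_cast (Fact.out : ℓ.Prime).one_lt)
  have hℓ0 : (ℓ : ℚ_[ℓ]) ≠ 0 := by
    exact_mod_cast (Fact.out : ℓ.Prime).ne_zero
  have ht : Tendsto (fun n : ℕ => (ℓ : ℚ_[ℓ]) ^ n) atTop (𝓝 0) :=
    tendsto_pow_atTop_nhds_zero_of_norm_lt_one hℓ1
  obtain ⟨A, hA⟩ : ∃ A : ℕ → Matrix (Fin N) (Fin N) ℚ_[ℓ],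
      A = fun n => ((ℓ : ℚ_[ℓ]) ^ n)⁻¹ • (ρ (σ n) - 1) := ⟨_, rfl⟩
  have hAlim : Tendsto A atTop (𝓝 X) := by rw [hA]; exact hσ
  have hρ : ∀ n, ρ (σ n) = 1 + (ℓ : ℚ_[ℓ]) ^ n • A n := by
    intro n
    rw [hA]
    simp only
    rw [smul_smul, mul_inv_cancel₀ (pow_ne_zero _ hℓ0), one_smul]
    abel
  -- the identity
  have hid : ∀ n, (A n)ᵀ * J + J * A n + (ℓ : ℚ_[ℓ]) ^ n • ((A n)ᵀ * J * A n) =
      (((ℓ : ℚ_[ℓ]) ^ n)⁻¹ * (c (σ n) - 1)) • J := by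
    intro n
    have h1 : (ρ (σ n))ᵀ * J * ρ (σ n) = c (σ n) • J := hc (σ n)
    rw [hρ n] at h1
    have hn : (ℓ : ℚ_[ℓ]) ^ n ≠ 0 := pow_ne_zero _ hℓ0
    have h2 : (1 + (ℓ : ℚ_[ℓ]) ^ n • A n)ᵀ * J * (1 + (ℓ : ℚ_[ℓ]) ^ n • A n) =
        J + (ℓ : ℚ_[ℓ]) ^ n • ((A n)ᵀ * J + J * A n + (ℓ : ℚ_[ℓ]) ^ n • ((A n)ᵀ * J * A n)) := by
      rw [transpose_add, transpose_one, transpose_smul, Matrix.add_mul, Matrix.one_mul,
        Matrix.mul_add, Matrix.mul_one, Matrix.add_mul, Matrix.smul_mul, Matrix.mul_smul,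
        Matrix.smul_mul, Matrix.mul_smul, smul_add, smul_add]
      abel
    rw [h2] at h1
    have h3 : (ℓ : ℚ_[ℓ]) ^ n • ((A n)ᵀ * J + J * A n + (ℓ : ℚ_[ℓ]) ^ n • ((A n)ᵀ * J * A n)) =
        (c (σ n) - 1) • J := by
      rw [sub_smul, one_smul, ← h1]
      abel
    rw [mul_smul, ← h3, smul_smul, inv_mul_cancel₀ hn, one_smul]
  have hlim : Tendsto (fun n => (A n)ᵀ * J + J * A n + (ℓ : ℚ_[ℓ]) ^ n • ((A n)ᵀ * J * A n)) atTop
      (𝓝 (Xᵀ * J + J * X)) := by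
    have hT : Tendsto (fun n => (A n)ᵀ) atTop (𝓝 Xᵀ) :=
      ((Continuous.matrix_transpose continuous_id).tendsto X).comp hAlim
    have h1 : Tendsto (fun n => (A n)ᵀ * J) atTop (𝓝 (Xᵀ * J)) := hT.mul_const J
    have h2 : Tendsto (fun n => J * A n) atTop (𝓝 (J * X)) := hAlim.const_mul J
    have h3 : Tendsto (fun n => (A n)ᵀ * J * A n) atTop (𝓝 (Xᵀ * J * X)) := h1.mul hAlim
    have h4 : Tendsto (fun n => (ℓ : ℚ_[ℓ]) ^ n • ((A n)ᵀ * J * A n)) atTop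
        (𝓝 ((0 : ℚ_[ℓ]) • (Xᵀ * J * X))) := ht.smul h3
    rw [zero_smul] at h4
    have h5 := (h1.add h2).add h4
    rwa [add_zero] at h5
  rcases Nat.eq_zero_or_pos N with hN | hN
  · subst hN
    exact ⟨0, by ext i; exact i.elim0⟩
  obtain ⟨i, j, hij⟩ : ∃ i j, J i j ≠ 0 := by
    by_contra hcon
    push Not at hcon
    apply hJ
    have h0 : J = 0 := by
      ext i j
      exact hcon i j
    have : Nonempty (Fin N) := ⟨⟨0, hN⟩⟩
    rw [h0]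
    exact Matrix.det_zero
  have hν : Tendsto (fun n => ((ℓ : ℚ_[ℓ]) ^ n)⁻¹ * (c (σ n) - 1)) atTop
      (𝓝 ((Xᵀ * J + J * X) i j / J i j)) := by
    have h1 := (((continuous_apply_apply (ρ := fun _ _ => ℚ_[ℓ]) i j).tendsto
      (Xᵀ * J + J * X)).comp hlim).div_const (J i j)
    refine h1.congr fun n => ?_
    simp only [Function.comp]
    rw [hid n, Matrix.smul_apply, smul_eq_mul, mul_div_cancel_right₀ _ hij]
  refine ⟨(Xᵀ * J + J * X) i j / J i j, ?_⟩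
  have h2 : Tendsto (fun n => (((ℓ : ℚ_[ℓ]) ^ n)⁻¹ * (c (σ n) - 1)) • J) atTop
      (𝓝 (((Xᵀ * J + J * X) i j / J i j) • J)) := hν.smul_const J
  refine tendsto_nhds_unique hlim (h2.congr fun n => (hid n).symm)

theorem t2 : S_CAYS := by
  intro ℓ _ N G _ ρ B hB _ hopen X hX
  obtain ⟨ε, hε, hopen⟩ := hopen
  have hXB : Xᵀ * B = -(B * X) := eq_neg_of_add_eq_zero_left hX
  -- the parameters
  let h : ℕ → ℚ_[ℓ] := fun n => (2 : ℚ_[ℓ])⁻¹ * (ℓ : ℚ_[ℓ]) ^ n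
  have hℓ1 : ‖(ℓ : ℚ_[ℓ])‖ < 1 := by
    rw [Padic.norm_p]
    exact inv_lt_one_of_one_lt₀ (by exact_mod_cast (Fact.out : ℓ.Prime).one_lt)
  have hℓ0 : (ℓ : ℚ_[ℓ]) ≠ 0 := by
    exact_mod_cast (Fact.out : ℓ.Prime).ne_zero
  have hh : Tendsto h atTop (𝓝 0) := by
    have h1 := (tendsto_pow_atTop_nhds_zero_of_norm_lt_one hℓ1).const_mul ((2 : ℚ_[ℓ])⁻¹)
    rwa [mul_zero] at h1
  let A : ℕ → Matrix (Fin N) (Fin N) ℚ_[ℓ] := fun n => 1 - h n • X
  let D : ℕ → Matrix (Fin N) (Fin N) ℚ_[ℓ] := fun n => 1 + h n • X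
  have hA : Tendsto A atTop (𝓝 1) := by
    have h1 : Tendsto (fun n => (1 : Matrix (Fin N) (Fin N) ℚ_[ℓ]) - h n • X) atTop
        (𝓝 (1 - (0 : ℚ_[ℓ]) • X)) := tendsto_const_nhds.sub (hh.smul_const X)
    rwa [zero_smul, sub_zero] at h1
  have hD : Tendsto D atTop (𝓝 1) := by
    have h1 : Tendsto (fun n => (1 : Matrix (Fin N) (Fin N) ℚ_[ℓ]) + h n • X) atTop
        (𝓝 (1 + (0 : ℚ_[ℓ]) • X)) := tendsto_const_nhds.add (hh.smul_const X)
    rwa [zero_smul, add_zero] at h1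
  have hdet : Tendsto (fun n => (A n).det) atTop (𝓝 1) := by
    have h1 := (Continuous.matrix_det (continuous_id (X := Matrix (Fin N) (Fin N) ℚ_[ℓ]))).tendsto 1
    have h2 := h1.comp hA
    simp only [id_eq, det_one] at h2
    exact h2
  have hadj : Tendsto (fun n => (A n).adjugate) atTop (𝓝 1) := by
    have h1 := (Continuous.matrix_adjugate
      (continuous_id (X := Matrix (Fin N) (Fin N) ℚ_[ℓ]))).tendsto 1
    have h2 := h1.comp hA
    simp only [id_eq, adjugate_one] at h2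
    exact h2
  have hinv : Tendsto (fun n => (A n)⁻¹) atTop (𝓝 1) := by
    have h1 : Tendsto (fun n => ((A n).det)⁻¹ • (A n).adjugate) atTop
        (𝓝 ((1 : ℚ_[ℓ])⁻¹ • (1 : Matrix (Fin N) (Fin N) ℚ_[ℓ]))) :=
      (hdet.inv₀ one_ne_zero).smul hadj
    rw [inv_one, one_smul] at h1
    refine h1.congr fun n => ?_
    rw [Matrix.inv_def, Ring.inverse_eq_inv']
  let g : ℕ → Matrix (Fin N) (Fin N) ℚ_[ℓ] := fun n => D n * (A n)⁻¹
  have hg : Tendsto g atTop (𝓝 1) := by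
    have h1 : Tendsto (fun n => D n * (A n)⁻¹) atTop (𝓝 (1 * 1)) := hD.mul hinv
    rwa [one_mul] at h1
  have hne : ∀ᶠ n in atTop, (A n).det ≠ 0 := hdet.eventually_ne one_ne_zero
  have hsmall : ∀ᶠ n in atTop, ∀ i j, ‖(g n - 1) i j‖ < ε := by
    rw [eventually_all]
    intro i
    rw [eventually_all]
    intro j
    have h1 : Tendsto (fun n => ‖(g n - 1) i j‖) atTop (𝓝 0) := by
      have h2 : Tendsto (fun n => g n - 1) atTop (𝓝 (1 - 1)) := hg.sub_const 1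
      rw [sub_self] at h2
      have h3 := ((continuous_apply_apply (ρ := fun _ _ => ℚ_[ℓ]) i j).tendsto
        (0 : Matrix (Fin N) (Fin N) ℚ_[ℓ])).comp h2
      have h4 := h3.norm
      simp only [Matrix.zero_apply, norm_zero] at h4
      exact h4
    exact h1.eventually_lt_const hε
  have hisom : ∀ n, (A n).det ≠ 0 → (g n)ᵀ * B * g n = B := by
    intro n hn
    have hu : IsUnit (A n).det := isUnit_iff_ne_zero.2 hn
    have h1 : (D n)ᵀ * B = B * A n := by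
      show (1 + h n • X)ᵀ * B = B * (1 - h n • X)
      rw [transpose_add, transpose_one, transpose_smul, Matrix.add_mul, Matrix.one_mul,
        Matrix.smul_mul, hXB, Matrix.mul_sub, Matrix.mul_one, Matrix.mul_smul, smul_neg,
        sub_eq_add_neg]
    have h2 : (A n)ᵀ * B = B * D n := by
      show (1 - h n • X)ᵀ * B = B * (1 + h n • X)
      rw [transpose_sub, transpose_one, transpose_smul, Matrix.sub_mul, Matrix.one_mul,
        Matrix.smul_mul, hXB, Matrix.mul_add, Matrix.mul_one, Matrix.mul_smul, smul_neg,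
        sub_neg_eq_add]
    have h3 : A n * D n = D n * A n := by
      show (1 - h n • X) * (1 + h n • X) = (1 + h n • X) * (1 - h n • X)
      exact ((Commute.one_left _).sub_left ((Commute.one_right _).add_right (Commute.refl _))).eq
    have h4 : (D n)ᵀ * B * D n = (A n)ᵀ * B * A n := by
      rw [h1, h2, Matrix.mul_assoc, h3, Matrix.mul_assoc]
    show (D n * (A n)⁻¹)ᵀ * B * (D n * (A n)⁻¹) = B
    calc (D n * (A n)⁻¹)ᵀ * B * (D n * (A n)⁻¹)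
        = ((A n)⁻¹)ᵀ * ((D n)ᵀ * B * D n) * (A n)⁻¹ := by
          rw [transpose_mul]; simp only [Matrix.mul_assoc]
      _ = ((A n)⁻¹)ᵀ * ((A n)ᵀ * B * A n) * (A n)⁻¹ := by rw [h4]
      _ = (A n * (A n)⁻¹)ᵀ * B * (A n * (A n)⁻¹) := by
          rw [transpose_mul]; simp only [Matrix.mul_assoc]
      _ = B := by
          rw [Matrix.mul_nonsing_inv _ hu, transpose_one, Matrix.one_mul, Matrix.mul_one]
  have hquot : ∀ n, (A n).det ≠ 0 →
      ((ℓ : ℚ_[ℓ]) ^ n)⁻¹ • (g n - 1) = X * (A n)⁻¹ := by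
    intro n hn
    have hu : IsUnit (A n).det := isUnit_iff_ne_zero.2 hn
    have h1 : g n - 1 = ((ℓ : ℚ_[ℓ]) ^ n) • (X * (A n)⁻¹) := by
      have h2 : (1 : Matrix (Fin N) (Fin N) ℚ_[ℓ]) = A n * (A n)⁻¹ :=
        (Matrix.mul_nonsing_inv _ hu).symm
      have h3 : D n - A n = ((ℓ : ℚ_[ℓ]) ^ n) • X := by
        show (1 + h n • X) - (1 - h n • X) = _
        rw [add_sub_sub_cancel, ← add_smul]
        congr 1
        show (2 : ℚ_[ℓ])⁻¹ * (ℓ : ℚ_[ℓ]) ^ n + (2 : ℚ_[ℓ])⁻¹ * (ℓ : ℚ_[ℓ]) ^ n = _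
        ring
      show D n * (A n)⁻¹ - 1 = _
      nth_rewrite 1 [h2]
      rw [← Matrix.sub_mul, h3, Matrix.smul_mul]
    rw [h1, smul_smul, inv_mul_cancel₀ (pow_ne_zero _ hℓ0), one_smul]
  -- choose the group elements
  have hchoose : ∀ n, ∃ σ : G, ((A n).det ≠ 0 ∧ ∀ i j, ‖(g n - 1) i j‖ < ε) → ρ σ = g n := by
    intro n
    by_cases hn : (A n).det ≠ 0 ∧ ∀ i j, ‖(g n - 1) i j‖ < ε
    · obtain ⟨σ, hσ⟩ := hopen (g n) (hisom n hn.1) hn.2
      exact ⟨σ, fun _ => hσ⟩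
    · exact ⟨1, fun h => absurd h hn⟩
  choose σ hσ using hchoose
  refine ⟨σ, ?_⟩
  have hlim : Tendsto (fun n => X * (A n)⁻¹) atTop (𝓝 X) := by
    have h1 : Tendsto (fun n => X * (A n)⁻¹) atTop (𝓝 (X * 1)) := tendsto_const_nhds.mul hinv
    rwa [mul_one] at h1
  refine hlim.congr' ?_
  filter_upwards [hne, hsmall] with n h1 h2
  rw [hσ n ⟨h1, h2⟩, hquot n h1]

end Pool.Agent.Y710.ZS
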